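import Pool.Agent.Lib.MP_524519_ag.DU5.AB.Iface

/-! # ALEN: the colength of the ideal `A` -/

set_option autoImplicit false
set_option linter.unusedSectionVars false

namespace Pool.Agent.DU5.AB.H97

open MvPowerSeries Pool.Agent.DU5

theorem length_eq_of_bijective {k M N : Type} [Field k] [AddCommGroup M] [Module k M]
    [AddCommGroup N] [Module k N] {σ : k →+* k} [RingHomSurjective σ] (f : M →ₛₗ[σ] N)
    (hf : Function.Bijective f) : Module.length k M = Module.length k N := by
  unfold Module.length
  have h := Order.krullDim_eq_of_orderIso (Submodule.orderIsoMapComapOfBijective f hf)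
  simp only [h]

theorem alen (h1 : PBStatement) : ALENStatement := by
  intro p _ k _ _ _ J A hA
  obtain ⟨hadd, hmul, hsum, hcoe⟩ := h1 p k
  let σ : k →+* k := ((frobeniusEquiv k p).symm : k ≃+* k)
  have hσs : RingHomSurjective σ := ⟨(frobeniusEquiv k p).symm.surjective⟩
  let F : O k 3 →ₛₗ[σ] (∀ a, O k 3 ⧸ J a) :=
    { toFun := fun G a => Ideal.Quotient.mk (J a) (pc p a G)
      map_add' := fun G H => by
        funext a
        simp only [Pi.add_apply]
        rw [hadd, map_add]
      map_smul' := fun c G => by
        funext a
        have h2 : c • G = (MvPowerSeries.C (σ c)) ^ p * G := by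
          rw [← map_pow]
          have h3 : σ c ^ p = c := by
            change ((frobeniusEquiv k p).symm c) ^ p = c
            rw [← frobenius_def]
            exact (frobeniusEquiv k p).apply_symm_apply c
          rw [h3, MvPowerSeries.smul_eq_C_mul]
        simp only [Pi.smul_apply]
        rw [h2, hmul, ← MvPowerSeries.smul_eq_C_mul]
        rfl }
  have hker : A.restrictScalars k = LinearMap.ker F := by
    ext G
    rw [Submodule.restrictScalars_mem, hA, LinearMap.mem_ker]
    constructor
    · intro h
      funext a
      exact Ideal.Quotient.eq_zero_iff_mem.2 (h a)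
    · intro h a
      exact Ideal.Quotient.eq_zero_iff_mem.1 (congrFun h a)
  have hsurj : Function.Surjective F := by
    intro y
    choose c hc using fun a => Ideal.Quotient.mk_surjective (I := J a) (y a)
    refine ⟨∑ a : Fin 3 → Fin p, c a ^ p * mn a, ?_⟩
    funext b
    change Ideal.Quotient.mk (J b) (pc p b _) = y b
    rw [hcoe, hc]
  let F' : (O k 3 ⧸ A.restrictScalars k) →ₛₗ[σ] (∀ a, O k 3 ⧸ J a) :=
    (A.restrictScalars k).liftQ F hker.le
  have hbij : Function.Bijective F' := by
    constructor
    · rw [← LinearMap.ker_eq_bot]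
      exact Submodule.ker_liftQ_eq_bot' _ F hker
    · intro y
      obtain ⟨G, hG⟩ := hsurj y
      exact ⟨Submodule.Quotient.mk G, hG⟩
  have h2 := length_eq_of_bijective F' hbij
  have h3 := (Submodule.Quotient.restrictScalarsEquiv k A).length_eq
  unfold len
  rw [← h3, h2, Module.length_pi_of_fintype]

end Pool.Agent.DU5.AB.H97
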